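import Mathlib
import Pool.Agent.Lib.MP_97bd52_lc.P.Sol
import Pool.Agent.Lib.MP_97bd52_lc.P.Fin

open Pool.Agent.Lib.MP_97bd52_lc

theorem Pool.Agent.Results.MP_97bd52_lc.LinearLowerBound.result (p : ℕ) (hp : p.Prime) (d : ℕ) :
    (3 ≤ d → ∃ ε₀ c : ℝ, 0 < ε₀ ∧ 0 < c ∧ ∃ n₀ : ℕ, ∀ ε : ℝ, 0 < ε → ε ≤ ε₀ → ∀ n ≥ n₀,
      (∀ Q : ℕ, Solves p d ε n n Q → c * n ≤ Q) ∧ ∀ m : ℕ, Solves p d ε m n n) ∧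
    (d ≤ 2 → ∀ ε : ℝ, 0 < ε → ∃ Q : ℕ, ∀ m n : ℕ, Solves p d ε m n Q) :=
  dichotomy p hp d
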